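import Pool.Agent.H5.EC.H1
import Pool.Agent.H5.EC.E5
import Pool.Agent.H5.EC.G5b
import Pool.Agent.H5.EC.G6

/-! A minimal nonsingular holomorphic foliation by Riemann surfaces on a compact complex manifold
which admits uncountably many pairwise non-proportional extremal directed positive `dd^c`-closed
currents, none of which is closed. -/

open Set Topology MeasureTheory
open scoped Manifold ContDiff

attribute [-instance] TopCat.of.chartedSpace

noncomputable section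

namespace Pool.Agent.Results.MP_ec4b97_an.MinimalFoliation

open Pool.Agent.Helper289.LamDefs Pool.Agent.H5.EC

section currents

variable {L : IY →ₗ[ℝ] ℝ} {ξ : Measure (ℂ × W)}

lemma eq_of_fn {T T' : Current E7 Pool.Agent.H5.EC.X} (hT : fol.IsDirected T)
    (hT' : fol.IsDirected T') {c : ℝ} (h : fn T = c • fn T') : T = c • T' := by
  apply LinearMap.ext
  intro φ
  have h1 := directed_fn hT φ
  have h2 := directed_fn hT' φ
  have h3 : (c • T') φ = c * T' φ := rfl
  rw [h3, h1, h2, h]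
  rfl

lemma mem_cone (c : ℝ) (hξ : Rep L ξ) (hL : PH L) (h0 : ξ {p | p.2.1.1 = 0} = 0)
    [IsFiniteMeasure (nuc c ξ)] : cur (intL (nuc c ξ)) ∈ fol.cone :=
  ⟨isPositive_cur (posL_intL _), isDdcClosed_cur (harmL_nuc c hξ hL h0), isDirected_cur _⟩

lemma ne_zero (c : ℝ) (hξ : Rep L ξ) (h1 : L oneY = 1) [IsFiniteMeasure (nuc c ξ)] :
    cur (intL (nuc c ξ)) ≠ 0 := by
  intro h
  have h2 : fn (cur (intL (nuc c ξ))) 1 = 0 := by
    rw [h]; rfl
  rw [fn_cur, intL_one c hξ, h1] at h2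
  exact one_ne_zero h2

lemma extremal {c : ℝ} (hc : c ∈ Ioo (0 : ℝ) (1 / 2)) (hξ : Rep L ξ) (hL : PH L) (hE : Ext L)
    (h1 : L oneY = 1) (h0 : ξ {p | p.2.1.1 = 0} = 0) [IsFiniteMeasure (nuc c ξ)] :
    fol.IsExtremal (cur (intL (nuc c ξ))) := by
  refine ⟨mem_cone c hξ hL h0, ne_zero c hξ h1, ?_⟩
  rintro T₁ ⟨hp1, hd1, hdir1⟩ T₂ ⟨hp2, hd2, hdir2⟩ hsum
  have hH1 : HarmL (fn T₁) := harmL_fn hd1 (directed_fn hdir1)
  have hs : fn T₁ + fn T₂ = intL (nuc c ξ) := by
    rw [← fn_cur (intL (nuc c ξ)), ← hsum]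
    rfl
  obtain ⟨a, ha⟩ := ext_nuc hc hξ hL hE h1 h0 (posL_fn hp1) (posL_fn hp2) hH1 hs
  refine ⟨a, eq_of_fn hdir1 (mem_cone c hξ hL h0).2.2 ?_⟩
  rw [fn_cur, ha]

end currents

/-- There are a compact connected complex manifold `X` of dimension seven, a minimal nonsingular
holomorphic foliation by Riemann surfaces on `X`, and an uncountable set `S` of pairwise
non-proportional extremal positive `dd^c`-closed currents directed by the foliation, none of which
is closed. -/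
theorem result : ∃ (V : Type) (_ : NormedAddCommGroup V) (_ : NormedSpace ℂ V) (X : Type)
    (_ : TopologicalSpace X) (_ : ChartedSpace (ℂ × V) X),
    Module.finrank ℂ V = 6 ∧ IsManifold 𝓘(ℂ, ℂ × V) ω X ∧ T2Space X ∧ CompactSpace X ∧
    ConnectedSpace X ∧
    ∃ 𝓕 : Foliation V X, 𝓕.IsMinimal ∧ ∃ S : Set (Current (ℂ × V) X), ¬ S.Countable ∧
      (∀ T ∈ S, 𝓕.IsExtremal T ∧ ¬ IsClosedCurrent T) ∧
      ∀ T ∈ S, ∀ T' ∈ S, T ≠ T' → ¬ IsMultiple T T' := by
  obtain ⟨L, hL, h1, hq, hE⟩ := exists_ext (exists_PH energy)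
  obtain ⟨ξ, hξ⟩ := exists_Rep L hL.pos
  have h0 := null_zero hξ hL hE hq
  have hfin : ∀ c : ℝ, IsFiniteMeasure (nuc c ξ) := fun c => isFinite_nuc c hξ
  set Tc : ℝ → Current E7 Pool.Agent.H5.EC.X := fun c => cur (intL (nuc c ξ)) with hTc
  have key : ∀ c ∈ Ioo (0 : ℝ) (1 / 2), ∀ c' ∈ Ioo (0 : ℝ) (1 / 2), ∀ t : ℝ,
      Tc c = t • Tc c' → c = c' := by
    intro c hc c' hc' t h
    by_contra hne
    apply nuc_not_prop hc hc' hne hξ h1 h0 t
    have h2 : fn (Tc c) = t • fn (Tc c') := by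
      rw [h]; rfl
    rwa [hTc, fn_cur, fn_cur] at h2
  refine ⟨V7, inferInstance, inferInstance, Pool.Agent.H5.EC.X, inferInstance, inferInstance,
    by simp, inferInstance, inferInstance, inferInstance, inferInstance, fol, isMinimal_fol,
    Tc '' Ioo (0 : ℝ) (1 / 2), ?_, ?_, ?_⟩
  · intro hcount
    have hinj : InjOn Tc (Ioo (0 : ℝ) (1 / 2)) := by
      intro c hc c' hc' h
      exact key c hc c' hc' 1 (by rw [one_smul]; exact h)
    have h2 : (Ioo (0 : ℝ) (1 / 2)).Countable :=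
      countable_of_injective_of_countable_image hinj hcount
    have h3 : ¬ (Ioo (0 : ℝ) (1 / 2)).Countable := by
      rw [← Cardinal.le_aleph0_iff_set_countable, Cardinal.mk_Ioo_real (by norm_num), not_le]
      exact Cardinal.aleph0_lt_continuum
    exact h3 h2
  · rintro _ ⟨c, hc, rfl⟩
    exact ⟨extremal hc hξ hL hE h1 h0, not_closed_nuc c hξ hL h0 hq⟩
  · rintro _ ⟨c, hc, rfl⟩ _ ⟨c', hc', rfl⟩ hne ⟨t, heq⟩
    exact hne (congrArg Tc (key c hc c' hc' t heq))

end Pool.Agent.Results.MP_ec4b97_an.MinimalFoliation
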